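import Mathlib

set_option autoImplicit false

/-!
# A block of a connected graph is a retract along its attachment vertices

For a block `B` of a connected graph `G` we build a map `f : V → V` that fixes `B`
pointwise, takes values in `B`, and such that every edge of `G` either has both ends
in `B` or has both ends in one fibre of `f`.
-/

namespace Pool.Agent.Helper26

open SimpleGraph

variable {V : Type*}

/-- The edges of `G` that do not lie inside `B`. -/
def outer (G : SimpleGraph V) (B : Set V) : SimpleGraph V where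
  Adj u v := G.Adj u v ∧ ¬ (u ∈ B ∧ v ∈ B)
  symm := ⟨fun _ _ h => ⟨h.1.symm, fun h' => h.2 ⟨h'.2, h'.1⟩⟩⟩
  loopless := ⟨fun u h => G.loopless.irrefl u h.1⟩

theorem outer_le (G : SimpleGraph V) (B : Set V) : outer G B ≤ G := fun _ _ h => h.1

/-- `B` is a block of `G`: connected, without cutvertex of its own, and maximal. -/
def IsBlock (G : SimpleGraph V) (B : Set V) : Prop :=
  (G.induce B).Connected ∧
    (∀ v ∈ B, (G.induce (B \ {v})).Preconnected) ∧
    ∀ B' : Set V, B ⊆ B' → (G.induce B').Connected →
      (∀ v ∈ B', (G.induce (B' \ {v})).Preconnected) → B' = B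

theorem precon_of_hub (G : SimpleGraph V) (T T0 : Set V) (h0 : T0 ⊆ T)
    (hpre : (G.induce T0).Preconnected)
    (h : ∀ w ∈ T, ∃ c ∈ T0, ∃ q : G.Walk w c, ∀ x ∈ q.support, x ∈ T) :
    (G.induce T).Preconnected := by
  intro a b
  obtain ⟨c, hc, q, hq⟩ := h a.1 a.2
  obtain ⟨d, hd, r, hr⟩ := h b.1 b.2
  have h1 : (G.induce T).Reachable a ⟨c, h0 hc⟩ := ⟨q.induce T hq⟩
  have h2 : (G.induce T).Reachable b ⟨d, h0 hd⟩ := ⟨r.induce T hr⟩
  have h3 : (G.induce T).Reachable ⟨c, h0 hc⟩ ⟨d, h0 hd⟩ := by
    exact (hpre ⟨c, hc⟩ ⟨d, hd⟩).map (G.induceHomOfLE h0).toHom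
  exact h1.trans (h3.trans h2.symm)

theorem not_outer_reach [DecidableEq V] (G : SimpleGraph V) (B : Set V) (hB : IsBlock G B)
    {c1 c2 : V} (h1 : c1 ∈ B) (h2 : c2 ∈ B) (hne : c1 ≠ c2) :
    ¬ (outer G B).Reachable c1 c2 := by
  rintro ⟨p0⟩
  obtain ⟨p, hp⟩ := p0.toPath
  -- the path in G
  set B' : Set V := B ∪ {w | w ∈ p.support} with hB'
  have hBB' : B ⊆ B' := Set.subset_union_left
  have key : ∀ v w : V, w ∈ B' → w ≠ v → ∃ c ∈ B \ {v}, ∃ q : G.Walk w c,
      ∀ x ∈ q.support, x ∈ B' \ {v} := by
    intro v w hw hwv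
    rcases hw with hw | hw
    · refine ⟨w, ⟨hw, hwv⟩, Walk.nil, ?_⟩
      intro x hx
      simp only [Walk.support_nil, List.mem_singleton] at hx
      subst hx
      exact ⟨hBB' hw, hwv⟩
    · have hw' : w ∈ p.support := hw
      by_cases hv : v ∈ (p.takeUntil w hw').support
      · -- v is not on the second part
        have hv2 : v ∉ (p.dropUntil w hw').support := by
          intro hv2
          have hnd := hp.support_nodup
          rw [← p.take_spec hw', Walk.support_append] at hnd
          have hdis := (List.nodup_append.1 hnd).2.2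
          have h3 : v ∈ (p.dropUntil w hw').support.tail := by
            have := hv2
            rw [← Walk.cons_tail_support] at this
            rcases List.mem_cons.1 this with h | h
            · exact absurd h.symm hwv
            · exact h
          exact hdis v hv v h3 rfl
        refine ⟨c2, ⟨h2, ?_⟩, (p.dropUntil w hw').mapLe (outer_le G B), ?_⟩
        · intro hc
          apply hv2
          rw [← (Set.mem_singleton_iff.1 hc)]
          exact Walk.end_mem_support _
        · intro x hx
          rw [Walk.support_mapLe_eq_support] at hx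
          refine ⟨Or.inr (Walk.support_dropUntil_subset_support p hw' hx), ?_⟩
          intro hxv
          rw [Set.mem_singleton_iff.1 hxv] at hx
          exact hv2 hx
      · refine ⟨c1, ⟨h1, ?_⟩, ((p.takeUntil w hw').mapLe (outer_le G B)).reverse, ?_⟩
        · intro hc
          apply hv
          rw [← (Set.mem_singleton_iff.1 hc)]
          exact Walk.start_mem_support _
        · intro x hx
          rw [Walk.support_reverse, List.mem_reverse, Walk.support_mapLe_eq_support] at hx
          refine ⟨Or.inr (Walk.support_takeUntil_subset_support p hw' hx), ?_⟩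
          intro hxv
          rw [Set.mem_singleton_iff.1 hxv] at hx
          exact hv hx
  have hBp : ∀ v : V, (G.induce (B \ {v})).Preconnected := by
    intro v
    by_cases hv : v ∈ B
    · exact hB.2.1 v hv
    · rw [Set.sdiff_singleton_eq_self hv]
      exact hB.1.preconnected
  have hpre : ∀ v : V, (G.induce (B' \ {v})).Preconnected := by
    intro v
    apply precon_of_hub G (B' \ {v}) (B \ {v}) (Set.sdiff_subset_sdiff_left hBB') (hBp v)
    rintro w ⟨hw, hwv⟩
    exact key v w hw hwv
  have hconn : (G.induce B').Connected := by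
    have hpre' : (G.induce B').Preconnected := by
      apply precon_of_hub G B' B hBB' hB.1.preconnected
      intro w hw
      by_cases hwB : w ∈ B
      · refine ⟨w, hwB, Walk.nil, ?_⟩
        intro x hx
        simp only [Walk.support_nil, List.mem_singleton] at hx
        subst hx
        exact hBB' hwB
      · have hw' : w ∈ p.support := by
          rcases hw with h | h
          · exact absurd h hwB
          · exact h
        refine ⟨c1, h1, ((p.takeUntil w hw').mapLe (outer_le G B)).reverse, ?_⟩
        intro x hx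
        rw [Walk.support_reverse, List.mem_reverse, Walk.support_mapLe_eq_support] at hx
        exact Or.inr (Walk.support_takeUntil_subset_support p hw' hx)
    have : Nonempty B' := ⟨⟨c1, hBB' h1⟩⟩
    exact ⟨hpre'⟩
  have hEq := hB.2.2 B' hBB' hconn (fun v _ => hpre v)
  cases p with
  | nil => exact hne rfl
  | @cons _ x _ hadj q =>
    have hx : x ∈ B' := by
      right
      simp
    rw [hEq] at hx
    exact hadj.2 ⟨h1, hx⟩

theorem exists_outer_reach (G : SimpleGraph V) (B : Set V) {v b : V} (hb : b ∈ B)
    (p : G.Walk v b) : ∃ c ∈ B, (outer G B).Reachable v c := by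
  induction p with
  | nil => exact ⟨_, hb, Reachable.refl _⟩
  | @cons u w _ hadj q ih =>
    by_cases hu : u ∈ B
    · exact ⟨u, hu, Reachable.refl _⟩
    · obtain ⟨c, hc, hr⟩ := ih hb
      refine ⟨c, hc, ?_⟩
      have : (outer G B).Adj u w := ⟨hadj, fun h => hu h.1⟩
      exact this.reachable.trans hr

theorem exists_retraction [DecidableEq V] (G : SimpleGraph V) (hG : G.Connected) (B : Set V)
    (hB : IsBlock G B) :
    ∃ f : V → V, (∀ v ∈ B, f v = v) ∧ (∀ v, f v ∈ B) ∧
      ∀ u v, G.Adj u v → (u ∈ B ∧ v ∈ B) ∨ f u = f v := by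
  obtain ⟨⟨b, hb⟩⟩ := hB.1.nonempty
  have h1 : ∀ v, ∃ c ∈ B, (outer G B).Reachable v c := by
    intro v
    obtain ⟨p⟩ := hG.preconnected v b
    exact exists_outer_reach G B hb p
  choose f hfB hfr using h1
  have huniq : ∀ c1 ∈ B, ∀ c2 ∈ B, (outer G B).Reachable c1 c2 → c1 = c2 := by
    intro c1 h1 c2 h2 hr
    by_contra hne
    exact not_outer_reach G B hB h1 h2 hne hr
  refine ⟨f, ?_, hfB, ?_⟩
  · intro v hv
    exact (huniq v hv (f v) (hfB v) (hfr v)).symm
  · intro u v huv
    by_cases h : u ∈ B ∧ v ∈ B
    · exact Or.inl h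
    · right
      have hadj : (outer G B).Adj u v := ⟨huv, h⟩
      exact huniq _ (hfB u) _ (hfB v) ((hfr u).symm.trans (hadj.reachable.trans (hfr v)))

end Pool.Agent.Helper26
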