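import Mathlib
import Pool.Agent.Helper26.BlockRetract

set_option autoImplicit false

/-!
# Edge-critical nuclear blocks are complete

Domination bookkeeping for a connected edge-critical graph `G` with a block `B` that
contains every vertex whose deletion keeps the domination number.
-/

namespace Pool.Agent.Helper26

open SimpleGraph Finset

variable {V : Type*} [Fintype V] [DecidableEq V]

/-- `D` dominates the set `S` in `H`. -/
def Dom (H : SimpleGraph V) (S : Set V) (D : Finset V) : Prop :=
  ∀ v ∈ S, v ∈ D ∨ ∃ u ∈ D, H.Adj v u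

/-- `γ` is the domination number function. -/
def IsGam (γ : SimpleGraph V → Set V → ℕ) : Prop :=
  ∀ (H : SimpleGraph V) (S : Set V),
    γ H S = sInf {n : ℕ | ∃ D : Finset V, (↑D : Set V) ⊆ S ∧ D.card = n ∧
      ∀ v ∈ S, v ∈ D ∨ ∃ u ∈ D, H.Adj v u}

omit [DecidableEq V] [Fintype V] in
theorem IsGam.le {γ : SimpleGraph V → Set V → ℕ} (hγ : IsGam γ) {H : SimpleGraph V}
    {S : Set V} {D : Finset V} (hD : (↑D : Set V) ⊆ S) (h : Dom H S D) :
    γ H S ≤ D.card := by
  rw [hγ]
  exact Nat.sInf_le ⟨D, hD, rfl, h⟩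

omit [DecidableEq V] in
theorem IsGam.ex {γ : SimpleGraph V → Set V → ℕ} (hγ : IsGam γ) (H : SimpleGraph V)
    (S : Set V) : ∃ D : Finset V, (↑D : Set V) ⊆ S ∧ D.card = γ H S ∧ Dom H S D := by
  classical
  rw [hγ]
  apply Nat.sInf_mem (s := {n : ℕ | ∃ D : Finset V, (↑D : Set V) ⊆ S ∧ D.card = n ∧
      ∀ v ∈ S, v ∈ D ∨ ∃ u ∈ D, H.Adj v u})
  refine ⟨(Set.toFinite S).toFinset.card, (Set.toFinite S).toFinset,
    (Set.Finite.coe_toFinset (Set.toFinite S)).subset, rfl, ?_⟩
  intro v hv
  left
  exact (Set.Finite.mem_toFinset (Set.toFinite S)).2 hv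

omit [Fintype V] [DecidableEq V] in
theorem dom_of_edge {G : SimpleGraph V} {u v z : V} {S : Set V} {D : Finset V}
    (h : Dom (G ⊔ edge u v) S D) (hz : z ∈ S) (hzu : ¬ (z = u ∧ v ∈ D))
    (hzv : ¬ (z = v ∧ u ∈ D)) : z ∈ D ∨ ∃ w ∈ D, G.Adj z w := by
  rcases h z hz with h | ⟨w, hw, hadj⟩
  · exact Or.inl h
  · right
    rw [sup_adj, edge_adj] at hadj
    rcases hadj with hadj | ⟨⟨h1, h2⟩ | ⟨h1, h2⟩, -⟩
    · exact ⟨w, hw, hadj⟩
    · subst h2
      exact absurd ⟨h1, hw⟩ hzu
    · subst h2
      exact absurd ⟨h1, hw⟩ hzv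

omit [Fintype V] [DecidableEq V] in
theorem edge_cases {G : SimpleGraph V} {u v : V} {S : Set V} {D : Finset V}
    (h : Dom (G ⊔ edge u v) S D) (hn : ¬ Dom G S D) :
    (v ∈ D ∧ u ∉ D ∧ ∀ w ∈ D, ¬ G.Adj u w) ∨ (u ∈ D ∧ v ∉ D ∧ ∀ w ∈ D, ¬ G.Adj v w) := by
  unfold Dom at hn
  push Not at hn
  obtain ⟨z, hz, hzD, hzn⟩ := hn
  rcases h z hz with h' | ⟨w, hw, hadj⟩
  · exact absurd h' hzD
  · rw [sup_adj, edge_adj] at hadj
    rcases hadj with hadj | ⟨⟨h1, h2⟩ | ⟨h1, h2⟩, -⟩
    · exact absurd hadj (hzn w hw)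
    · subst h1; subst h2
      exact Or.inl ⟨hw, hzD, hzn⟩
    · subst h1; subst h2
      exact Or.inr ⟨hw, hzD, hzn⟩

/-- The vertices attached to `B` at `c` (other than `c` itself). -/
def Yset (f : V → V) (c : V) : Finset V := univ.filter (fun v => f v = c ∧ v ≠ c)

theorem mem_Yset {f : V → V} {c v : V} : v ∈ Yset f c ↔ f v = c ∧ v ≠ c := by
  simp [Yset]

/-- The least number of vertices of `Yset f c` which together with `c` dominate `Yset f c`. -/
noncomputable def gv (G : SimpleGraph V) (f : V → V) (c : V) : ℕ :=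
  sInf {n : ℕ | ∃ D : Finset V, D ⊆ Yset f c ∧ D.card = n ∧
    ∀ v ∈ Yset f c, v ∈ D ∨ G.Adj v c ∨ ∃ u ∈ D, G.Adj v u}

theorem gv_le {G : SimpleGraph V} {f : V → V} {c : V} {D : Finset V} (hD : D ⊆ Yset f c)
    (h : ∀ v ∈ Yset f c, v ∈ D ∨ G.Adj v c ∨ ∃ u ∈ D, G.Adj v u) : gv G f c ≤ D.card :=
  Nat.sInf_le ⟨D, hD, rfl, h⟩

theorem gv_ex (G : SimpleGraph V) (f : V → V) (c : V) :
    ∃ D : Finset V, D ⊆ Yset f c ∧ D.card = gv G f c ∧
    ∀ v ∈ Yset f c, v ∈ D ∨ G.Adj v c ∨ ∃ u ∈ D, G.Adj v u := by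
  apply Nat.sInf_mem (s := {n : ℕ | ∃ D : Finset V, D ⊆ Yset f c ∧ D.card = n ∧
    ∀ v ∈ Yset f c, v ∈ D ∨ G.Adj v c ∨ ∃ u ∈ D, G.Adj v u})
  exact ⟨(Yset f c).card, Yset f c, Finset.Subset.refl _, rfl, fun v hv => Or.inl hv⟩

/-- The working hypotheses. -/
structure Setup (G : SimpleGraph V) (γ : SimpleGraph V → Set V → ℕ) (B : Finset V)
    (f : V → V) : Prop where
  gam : IsGam γ
  conn : G.Connected
  crit : ∀ u v : V, u ≠ v → ¬ G.Adj u v →
    γ (G ⊔ SimpleGraph.edge u v) Set.univ = γ G Set.univ - 1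
  fB : ∀ v ∈ B, f v = v
  fmem : ∀ v, f v ∈ B
  fadj : ∀ u v, G.Adj u v → (u ∈ B ∧ v ∈ B) ∨ f u = f v
  nuc : ∀ v : V, γ G ({v}ᶜ : Set V) = γ G Set.univ → v ∈ B
  nbr : ∀ c ∈ B, ∃ x ∈ B, x ≠ c ∧ G.Adj c x

namespace Setup

variable {G : SimpleGraph V} {γ : SimpleGraph V → Set V → ℕ} {B : Finset V} {f : V → V}

theorem one_le (h : Setup G γ B f) : 1 ≤ γ G Set.univ := by
  obtain ⟨D, -, hc, hd⟩ := h.gam.ex G Set.univ
  obtain ⟨v⟩ := h.conn.nonempty
  rw [← hc]
  rcases hd v (Set.mem_univ v) with h1 | ⟨u, hu, -⟩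
  · exact Finset.card_pos.2 ⟨v, h1⟩
  · exact Finset.card_pos.2 ⟨u, hu⟩

theorem le_of_dom (h : Setup G γ B f) {D : Finset V} (hD : Dom G Set.univ D) :
    γ G Set.univ ≤ D.card := h.gam.le (Set.subset_univ _) hD

theorem crit' (h : Setup G γ B f) {u v : V} (huv : u ≠ v) (hn : ¬ G.Adj u v) :
    ∃ D : Finset V, D.card + 1 = γ G Set.univ ∧ Dom (G ⊔ edge u v) Set.univ D ∧
      ¬ Dom G Set.univ D := by
  obtain ⟨D, -, hc, hd⟩ := h.gam.ex (G ⊔ edge u v) Set.univ
  rw [h.crit u v huv hn] at hc
  have h1 := h.one_le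
  refine ⟨D, by omega, hd, ?_⟩
  intro hd'
  have := h.le_of_dom hd'
  omega

theorem Y_not_mem (h : Setup G γ B f) {c v : V} (hv : v ∈ Yset f c) : v ∉ B := by
  intro hvB
  rw [mem_Yset] at hv
  exact hv.2 ((h.fB v hvB).symm.trans hv.1)

theorem Y_adj (h : Setup G γ B f) {c v u : V} (hv : v ∈ Yset f c) (hadj : G.Adj v u) :
    u = c ∨ u ∈ Yset f c := by
  by_cases huc : u = c
  · exact Or.inl huc
  · right
    rcases h.fadj v u hadj with h1 | h1
    · exact absurd h1.1 (h.Y_not_mem hv)
    · rw [mem_Yset] at hv ⊢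
      exact ⟨h1 ▸ hv.1, huc⟩

theorem del_le (h : Setup G γ B f) (v : V) : γ G ({v}ᶜ : Set V) ≤ γ G Set.univ := by
  obtain ⟨D, -, hc, hd⟩ := h.gam.ex G Set.univ
  by_cases hv : v ∈ D
  swap
  · rw [← hc]
    apply h.gam.le
    · intro x hx
      simp only [Set.mem_compl_iff, Set.mem_singleton_iff]
      rintro rfl
      exact hv hx
    · intro x _
      exact hd x (Set.mem_univ x)
  by_contra hlt
  push Not at hlt
  have hcard : (D.erase v).card + 1 = D.card := Finset.card_erase_add_one hv
  have hno0 : ¬ Dom G ({v}ᶜ : Set V) (D.erase v) := by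
    intro hd0
    have := h.gam.le (D := D.erase v) (by
      intro x hx
      simp only [Set.mem_compl_iff, Set.mem_singleton_iff]
      rintro rfl
      simp at hx) hd0
    omega
  have hno : ∀ w0, w0 ≠ v → ¬ Dom G ({v}ᶜ : Set V) (insert w0 (D.erase v)) := by
    intro w0 hw0 hd0
    have h1 := h.gam.le (D := insert w0 (D.erase v)) (by
      intro x hx
      simp only [Set.mem_compl_iff, Set.mem_singleton_iff]
      rintro rfl
      simp only [coe_insert, coe_erase, Set.mem_insert_iff] at hx
      rcases hx with hx | hx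
      · exact hw0 hx.symm
      · simp at hx) hd0
    have h2 := Finset.card_insert_le w0 (D.erase v)
    omega
  unfold Dom at hno0
  push Not at hno0
  obtain ⟨w1, hw1v, hw1D, hw1n⟩ := hno0
  have hw1v' : w1 ≠ v := by simpa using hw1v
  have h3 := hno w1 hw1v'
  unfold Dom at h3
  push Not at h3
  obtain ⟨w2, hw2v, hw2D, hw2n⟩ := h3
  have hw2v' : w2 ≠ v := by simpa using hw2v
  rw [Finset.mem_insert] at hw2D
  push Not at hw2D
  have hadj1 : G.Adj w1 v := by
    rcases hd w1 (Set.mem_univ _) with h4 | ⟨u, hu, hadj⟩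
    · exact absurd (Finset.mem_erase.2 ⟨hw1v', h4⟩) hw1D
    · by_cases huv : u = v
      · exact huv ▸ hadj
      · exact absurd hadj (hw1n u (Finset.mem_erase.2 ⟨huv, hu⟩))
  have hadj2 : G.Adj w2 v := by
    rcases hd w2 (Set.mem_univ _) with h4 | ⟨u, hu, hadj⟩
    · exact absurd (Finset.mem_erase.2 ⟨hw2v', h4⟩) hw2D.2
    · by_cases huv : u = v
      · exact huv ▸ hadj
      · exact absurd hadj (hw2n u (Finset.mem_insert_of_mem (Finset.mem_erase.2 ⟨huv, hu⟩)))
  have hnadj : ¬ G.Adj w2 w1 := hw2n w1 (Finset.mem_insert_self _ _)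
  obtain ⟨D', hD'c, hD'd, hD'n⟩ := h.crit' hw2D.1 hnadj
  have fin : ∀ w, (w = w1 ∨ w = w2) → (∀ u ∈ D', ¬ G.Adj w u) → G.Adj w v →
      (∀ z, z ≠ w → z ∈ D' ∨ ∃ u ∈ D', G.Adj z u) → False := by
    intro w _ hw hwv hz
    have hvD' : v ∉ D' := fun hvD => hw v hvD hwv
    have h5 := h.gam.le (H := G) (S := ({v}ᶜ : Set V)) (D := insert w D') (by
      intro x hx
      simp only [Set.mem_compl_iff, Set.mem_singleton_iff]
      rintro rfl
      simp only [coe_insert, Set.mem_insert_iff, mem_coe] at hx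
      rcases hx with hx | hx
      · subst hx
        exact G.loopless.irrefl _ hwv
      · exact hvD' hx) (by
      intro z _
      by_cases hzw : z = w
      · left; rw [hzw]; exact Finset.mem_insert_self _ _
      · rcases hz z hzw with h6 | ⟨u, hu, hadj⟩
        · exact Or.inl (Finset.mem_insert_of_mem h6)
        · exact Or.inr ⟨u, Finset.mem_insert_of_mem hu, hadj⟩)
    have h6 := Finset.card_insert_le w D'
    omega
  rcases edge_cases hD'd hD'n with ⟨ha, hb, hc'⟩ | ⟨ha, hb, hc'⟩
  · -- w1 ∈ D', w2 undominated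
    refine fin w2 (Or.inr rfl) hc' hadj2 ?_
    intro z hz
    by_cases hz1 : z = w1
    · exact Or.inl (hz1 ▸ ha)
    · exact dom_of_edge hD'd (Set.mem_univ z) (fun h => hz h.1) (fun h => hz1 h.1)
  · refine fin w1 (Or.inl rfl) hc' hadj1 ?_
    intro z hz
    by_cases hz1 : z = w2
    · exact Or.inl (hz1 ▸ ha)
    · exact dom_of_edge hD'd (Set.mem_univ z) (fun h => hz1 h.1) (fun h => hz h.1)

/-- `c` has a neighbour in `Yset f c` when the latter is nonempty. -/
theorem exists_Y_nbr (h : Setup G γ B f) {c : V} (hne : (Yset f c).Nonempty) :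
    ∃ y ∈ Yset f c, G.Adj y c := by
  by_contra hno
  push Not at hno
  obtain ⟨y, hy⟩ := hne
  have key : ∀ (a b : V) (_ : G.Walk a b), a ∈ Yset f c → b ∈ Yset f c := by
    intro a b q
    induction q with
    | nil => exact id
    | cons hadj q ih =>
      intro ha
      apply ih
      rcases h.Y_adj ha hadj with h1 | h1
      · subst h1
        exact absurd hadj (hno _ ha)
      · exact h1
  obtain ⟨q⟩ := h.conn.preconnected y c
  have := key y c q hy
  rw [mem_Yset] at this
  exact this.2 rfl

theorem claimT (h : Setup G γ B f) {c : V} (hc : c ∈ B) (hne : (Yset f c).Nonempty)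
    {D0 : Finset V} (_hD0 : D0 ⊆ Yset f c)
    (hdom0 : ∀ v ∈ Yset f c, v ∈ D0 ∨ ∃ u ∈ D0, G.Adj v u) :
    gv G f c + 1 ≤ D0.card := by
  by_contra hlt
  push Not at hlt
  have hD0g : D0.card ≤ gv G f c := by omega
  obtain ⟨y, hyY, hyc⟩ := h.exists_Y_nbr hne
  obtain ⟨x, hxB, hxc, hcx⟩ := h.nbr c hc
  have hfx : f x = x := h.fB x hxB
  have hxY : x ∉ Yset f c := fun hx => h.Y_not_mem hx hxB
  have hxy : x ≠ y := fun he => hxY (he ▸ hyY)
  have hnadj : ¬ G.Adj x y := by
    intro hadj
    rcases h.Y_adj hyY hadj.symm with h1 | h1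
    · exact hxc h1
    · exact hxY h1
  obtain ⟨D', hD'c, hD'd, hD'n⟩ := h.crit' hxy hnadj
  -- the part of a set outside `c` and `Yset`
  let X : Finset V → Finset V := fun D => D.filter (fun v => v ∉ Yset f c ∧ v ≠ c)
  let Yp : Finset V → Finset V := fun D => D.filter (fun v => v ∈ Yset f c)
  have hXmem : ∀ D v, v ∈ X D ↔ v ∈ D ∧ v ∉ Yset f c ∧ v ≠ c := by
    intro D v; simp [X]
  have hYmem : ∀ D v, v ∈ Yp D ↔ v ∈ D ∧ v ∈ Yset f c := by
    intro D v; simp [Yp]
  have hcard : ∀ D, (X D).card + (Yp D).card ≤ D.card := by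
    intro D
    rw [← Finset.card_union_of_disjoint]
    · apply Finset.card_le_card
      intro v hv
      rw [Finset.mem_union, hXmem, hYmem] at hv
      rcases hv with hv | hv
      · exact hv.1
      · exact hv.1
    · rw [Finset.disjoint_left]
      intro v hv hv'
      rw [hXmem] at hv
      rw [hYmem] at hv'
      exact hv.2.1 hv'.2
  have hcY : c ∉ Yset f c := by
    rw [mem_Yset]; exact fun h => h.2 rfl
  -- neighbours of X-vertices
  have hXadj : ∀ v u, v ∉ Yset f c → v ≠ c → G.Adj v u → u ∉ Yset f c := by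
    intro v u hv hvc hadj hu
    rcases h.Y_adj hu hadj.symm with h1 | h1
    · exact hvc h1
    · exact hv h1
  rcases edge_cases hD'd hD'n with ⟨ha, hb, hcc⟩ | ⟨ha, hb, hcc⟩
  · -- y ∈ D', x undominated
    have hcD' : c ∉ D' := fun hcD => hcc c hcD hcx.symm
    -- D1 dominates Y
    have hD1 : ∀ v ∈ Yset f c, v ∈ Yp D' ∨ ∃ u ∈ Yp D', G.Adj v u := by
      intro v hv
      by_cases hvy : v = y
      · left; rw [hYmem, hvy]; exact ⟨ha, hyY⟩
      · rcases dom_of_edge hD'd (Set.mem_univ v)
          (fun h => hxY (h.1 ▸ hv)) (fun h => hvy h.1) with h1 | ⟨u, hu, hadj⟩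
        · left; rw [hYmem]; exact ⟨h1, hv⟩
        · right
          refine ⟨u, ?_, hadj⟩
          rw [hYmem]
          rcases h.Y_adj hv hadj with h2 | h2
          · exact absurd (h2 ▸ hu) hcD'
          · exact ⟨hu, h2⟩
    have hle1 : (Yp D').card ≤ D0.card := by
      have hdom : Dom G Set.univ (insert x (X D') ∪ D0) := by
        intro v _
        by_cases hvY : v ∈ Yset f c
        · rcases hdom0 v hvY with h1 | ⟨u, hu, hadj⟩
          · exact Or.inl (Finset.mem_union_right _ h1)
          · exact Or.inr ⟨u, Finset.mem_union_right _ hu, hadj⟩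
        · by_cases hvc : v = c
          · right
            exact ⟨x, Finset.mem_union_left _ (Finset.mem_insert_self _ _), hvc ▸ hcx⟩
          · by_cases hvx : v = x
            · left; rw [hvx]; exact Finset.mem_union_left _ (Finset.mem_insert_self _ _)
            · rcases dom_of_edge hD'd (Set.mem_univ v)
                (fun h => hvx h.1) (fun h => hb h.2) with h1 | ⟨u, hu, hadj⟩
              · left
                apply Finset.mem_union_left
                apply Finset.mem_insert_of_mem
                rw [hXmem]; exact ⟨h1, hvY, hvc⟩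
              · right
                refine ⟨u, ?_, hadj⟩
                apply Finset.mem_union_left
                apply Finset.mem_insert_of_mem
                rw [hXmem]
                exact ⟨hu, hXadj v u hvY hvc hadj, fun h => hcD' (h ▸ hu)⟩
      have h1 := h.le_of_dom hdom
      have h2 := Finset.card_union_le (insert x (X D')) D0
      have h3 := Finset.card_insert_le x (X D')
      have h4 := hcard D'
      omega
    -- y is not critical
    have hyk : γ G ({y}ᶜ : Set V) = γ G Set.univ := by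
      apply le_antisymm (h.del_le y)
      by_contra hlt2
      push Not at hlt2
      obtain ⟨D, hDs, hDc, hDd⟩ := h.gam.ex G ({y}ᶜ : Set V)
      have hcD : c ∉ D := by
        intro hcD
        have : Dom G Set.univ D := by
          intro v _
          by_cases hvy : v = y
          · exact Or.inr ⟨c, hcD, hvy ▸ hyc⟩
          · exact hDd v (by simpa using hvy)
        have := h.le_of_dom this
        omega
      have hg : gv G f c ≤ (Yp D).card := by
        apply gv_le
        · intro v hv; rw [hYmem] at hv; exact hv.2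
        · intro v hv
          by_cases hvy : v = y
          · exact Or.inr (Or.inl (hvy ▸ hyc))
          · rcases hDd v (by simpa using hvy) with h1 | ⟨u, hu, hadj⟩
            · left; rw [hYmem]; exact ⟨h1, hv⟩
            · rcases h.Y_adj hv hadj with h2 | h2
              · exact absurd (h2 ▸ hu) hcD
              · right; right
                exact ⟨u, (hYmem _ _).2 ⟨hu, h2⟩, hadj⟩
      have hdom : Dom G Set.univ (X D ∪ Yp D') := by
        intro v _
        by_cases hvY : v ∈ Yset f c
        · rcases hD1 v hvY with h1 | ⟨u, hu, hadj⟩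
          · exact Or.inl (Finset.mem_union_right _ h1)
          · exact Or.inr ⟨u, Finset.mem_union_right _ hu, hadj⟩
        · by_cases hvc : v = c
          · right
            exact ⟨y, Finset.mem_union_right _ ((hYmem _ _).2 ⟨ha, hyY⟩), hvc ▸ hyc.symm⟩
          · have hvy : v ≠ y := fun he => hvY (he ▸ hyY)
            rcases hDd v (by simpa using hvy) with h1 | ⟨u, hu, hadj⟩
            · left
              apply Finset.mem_union_left
              rw [hXmem]; exact ⟨h1, hvY, hvc⟩
            · right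
              refine ⟨u, ?_, hadj⟩
              apply Finset.mem_union_left
              rw [hXmem]
              exact ⟨hu, hXadj v u hvY hvc hadj, fun h => hcD (h ▸ hu)⟩
      have h1 := h.le_of_dom hdom
      have h2 := Finset.card_union_le (X D) (Yp D')
      have h3 := hcard D
      omega
    exact h.Y_not_mem hyY (h.nuc y hyk)
  · -- x ∈ D', y undominated
    have hcD' : c ∉ D' := fun hcD => hcc c hcD hyc
    have hg : gv G f c ≤ (Yp D').card := by
      apply gv_le
      · intro v hv; rw [hYmem] at hv; exact hv.2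
      · intro v hv
        by_cases hvy : v = y
        · exact Or.inr (Or.inl (hvy ▸ hyc))
        · rcases dom_of_edge hD'd (Set.mem_univ v)
            (fun h => hxY (h.1 ▸ hv)) (fun h => hvy h.1) with h1 | ⟨u, hu, hadj⟩
          · left; rw [hYmem]; exact ⟨h1, hv⟩
          · rcases h.Y_adj hv hadj with h2 | h2
            · exact absurd (h2 ▸ hu) hcD'
            · right; right
              exact ⟨u, (hYmem _ _).2 ⟨hu, h2⟩, hadj⟩
    have hdom : Dom G Set.univ (X D' ∪ D0) := by
      intro v _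
      by_cases hvY : v ∈ Yset f c
      · rcases hdom0 v hvY with h1 | ⟨u, hu, hadj⟩
        · exact Or.inl (Finset.mem_union_right _ h1)
        · exact Or.inr ⟨u, Finset.mem_union_right _ hu, hadj⟩
      · by_cases hvc : v = c
        · right
          exact ⟨x, Finset.mem_union_left _ ((hXmem _ _).2 ⟨ha, hxY, hxc⟩), hvc ▸ hcx⟩
        · have hvy : v ≠ y := fun he => hvY (he ▸ hyY)
          rcases dom_of_edge hD'd (Set.mem_univ v)
            (fun h => hb h.2) (fun h => hvy h.1) with h1 | ⟨u, hu, hadj⟩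
          · left
            apply Finset.mem_union_left
            rw [hXmem]; exact ⟨h1, hvY, hvc⟩
          · right
            refine ⟨u, ?_, hadj⟩
            apply Finset.mem_union_left
            rw [hXmem]
            exact ⟨hu, hXadj v u hvY hvc hadj, fun h => hcD' (h ▸ hu)⟩
    have h1 := h.le_of_dom hdom
    have h2 := Finset.card_union_le (X D') D0
    have h3 := hcard D'
    omega

/-- Main counting lemma for one attached piece. -/
theorem L1 (h : Setup G γ B f) {c : V} (hc : c ∈ B) (hne : (Yset f c).Nonempty)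
    {D : Finset V} (hdom : ∀ v ∈ Yset f c, v ∈ D ∨ ∃ u ∈ D, G.Adj v u) :
    gv G f c + 1 ≤ (D.filter (fun a => f a = c)).card := by
  by_cases hcD : c ∈ D
  · have hsub : insert c (D.filter (fun a => a ∈ Yset f c)) ⊆ D.filter (fun a => f a = c) := by
      intro v hv
      rw [Finset.mem_insert, Finset.mem_filter] at hv
      rw [Finset.mem_filter]
      rcases hv with hv | hv
      · subst hv; exact ⟨hcD, h.fB _ hc⟩
      · exact ⟨hv.1, (mem_Yset.1 hv.2).1⟩
    have hnot : c ∉ D.filter (fun a => a ∈ Yset f c) := by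
      rw [Finset.mem_filter]
      intro hh
      exact (mem_Yset.1 hh.2).2 rfl
    have h1 := Finset.card_le_card hsub
    rw [Finset.card_insert_of_notMem hnot] at h1
    have h2 : gv G f c ≤ (D.filter (fun a => a ∈ Yset f c)).card := by
      apply gv_le
      · intro v hv; exact (Finset.mem_filter.1 hv).2
      · intro v hv
        rcases hdom v hv with h3 | ⟨u, hu, hadj⟩
        · left; exact Finset.mem_filter.2 ⟨h3, hv⟩
        · rcases h.Y_adj hv hadj with h4 | h4
          · right; left; exact h4 ▸ hadj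
          · right; right; exact ⟨u, Finset.mem_filter.2 ⟨hu, h4⟩, hadj⟩
    omega
  · have h2 : gv G f c + 1 ≤ (D.filter (fun a => a ∈ Yset f c)).card := by
      apply h.claimT hc hne
      · intro v hv; exact (Finset.mem_filter.1 hv).2
      · intro v hv
        rcases hdom v hv with h3 | ⟨u, hu, hadj⟩
        · left; exact Finset.mem_filter.2 ⟨h3, hv⟩
        · rcases h.Y_adj hv hadj with h4 | h4
          · exact absurd (h4 ▸ hu) hcD
          · right; exact ⟨u, Finset.mem_filter.2 ⟨hu, h4⟩, hadj⟩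
    have h3 : (D.filter (fun a => a ∈ Yset f c)).card ≤ (D.filter (fun a => f a = c)).card := by
      apply Finset.card_le_card
      intro v hv
      rw [Finset.mem_filter] at hv ⊢
      exact ⟨hv.1, (mem_Yset.1 hv.2).1⟩
    omega

theorem L2 (h : Setup G γ B f) {c : V} (hc : c ∈ B) (hne : (Yset f c).Nonempty) (y : V)
    {D : Finset V} (hdom : ∀ v ∈ Yset f c, v ≠ y → v ∈ D ∨ ∃ u ∈ D, G.Adj v u) :
    gv G f c ≤ (D.filter (fun a => f a = c)).card := by
  have h1 := h.L1 hc hne (D := insert y D) (by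
    intro v hv
    by_cases hvy : v = y
    · left; rw [hvy]; exact Finset.mem_insert_self _ _
    · rcases hdom v hv hvy with h2 | ⟨u, hu, hadj⟩
      · exact Or.inl (Finset.mem_insert_of_mem h2)
      · exact Or.inr ⟨u, Finset.mem_insert_of_mem hu, hadj⟩)
  have h2 : ((insert y D).filter (fun a => f a = c)).card ≤
      (D.filter (fun a => f a = c)).card + 1 := by
    rw [Finset.filter_insert]
    split_ifs
    · exact Finset.card_insert_le _ _
    · omega
  omega

/-- The attachment vertices. -/
def Cset (B : Finset V) (f : V → V) : Finset V := B.filter (fun c => (Yset f c).Nonempty)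

theorem count (h : Setup G γ B f) (D : Finset V) :
    ∑ c ∈ Cset B f, (D.filter (fun a => f a = c)).card +
      (D.filter (fun a => a ∈ B ∧ a ∉ Cset B f)).card ≤ D.card := by
  rw [Finset.sum_card_fiberwise_eq_card_filter, ← Finset.card_union_of_disjoint]
  · apply Finset.card_le_card
    intro v hv
    rw [Finset.mem_union, Finset.mem_filter, Finset.mem_filter] at hv
    rcases hv with hv | hv
    · exact hv.1
    · exact hv.1
  · rw [Finset.disjoint_left]
    intro v hv hv'
    rw [Finset.mem_filter] at hv hv'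
    rw [h.fB v hv'.2.1] at hv
    exact hv'.2.2 hv.2

/-- `E` together with the attachment vertices dominates `B`. -/
def Val (G : SimpleGraph V) (B : Finset V) (f : V → V) (E : Finset V) : Prop :=
  E ⊆ B ∧ ∀ v ∈ B, v ∈ E ∪ Cset B f ∨ ∃ u ∈ E ∪ Cset B f, G.Adj v u

theorem K1 (h : Setup G γ B f) {E : Finset V} (hE : Val G B f E) :
    γ G Set.univ ≤ ∑ c ∈ Cset B f, (gv G f c + 1) + E.card := by
  choose Dg hDsub hDcard hDdom using fun c => gv_ex G f c
  have hdom : Dom G Set.univ ((Cset B f).biUnion (fun c => insert c (Dg c)) ∪ E) := by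
    intro v _
    by_cases hv : v ∈ B
    · rcases hE.2 v hv with h1 | ⟨u, hu, hadj⟩
      · left
        rw [Finset.mem_union] at h1 ⊢
        rcases h1 with h1 | h1
        · exact Or.inr h1
        · left
          rw [Finset.mem_biUnion]
          exact ⟨v, h1, Finset.mem_insert_self _ _⟩
      · right
        refine ⟨u, ?_, hadj⟩
        rw [Finset.mem_union] at hu ⊢
        rcases hu with h1 | h1
        · exact Or.inr h1
        · left
          rw [Finset.mem_biUnion]
          exact ⟨u, h1, Finset.mem_insert_self _ _⟩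
    · have hvY : v ∈ Yset f (f v) := by
        rw [mem_Yset]
        exact ⟨rfl, fun he => hv (he ▸ h.fmem v)⟩
      have hfC : f v ∈ Cset B f := by
        unfold Cset
        rw [Finset.mem_filter]
        exact ⟨h.fmem v, ⟨v, hvY⟩⟩
      rcases hDdom (f v) v hvY with h1 | h1 | ⟨u, hu, hadj⟩
      · left
        rw [Finset.mem_union, Finset.mem_biUnion]
        exact Or.inl ⟨f v, hfC, Finset.mem_insert_of_mem h1⟩
      · right
        refine ⟨f v, ?_, h1⟩
        rw [Finset.mem_union, Finset.mem_biUnion]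
        exact Or.inl ⟨f v, hfC, Finset.mem_insert_self _ _⟩
      · right
        refine ⟨u, ?_, hadj⟩
        rw [Finset.mem_union, Finset.mem_biUnion]
        exact Or.inl ⟨f v, hfC, Finset.mem_insert_of_mem hu⟩
  refine (h.le_of_dom hdom).trans ?_
  refine (Finset.card_union_le _ _).trans ?_
  apply Nat.add_le_add_right
  refine Finset.card_biUnion_le.trans ?_
  apply Finset.sum_le_sum
  intro c _
  have := Finset.card_insert_le c (Dg c)
  rw [hDcard] at this
  exact this

theorem val_of_dom (h : Setup G γ B f) {D : Finset V}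
    (hd : ∀ z ∈ B, z ∉ Cset B f → z ∈ D ∨ (∃ w ∈ D, G.Adj z w) ∨ ∃ w ∈ Cset B f, G.Adj z w) :
    Val G B f (D.filter (fun a => a ∈ B ∧ a ∉ Cset B f)) := by
  refine ⟨fun v hv => (Finset.mem_filter.1 hv).2.1, ?_⟩
  intro z hz
  by_cases hzC : z ∈ Cset B f
  · exact Or.inl (Finset.mem_union_right _ hzC)
  · rcases hd z hz hzC with h1 | ⟨w, hw, hadj⟩ | ⟨w, hw, hadj⟩
    · left
      exact Finset.mem_union_left _ (Finset.mem_filter.2 ⟨h1, hz, hzC⟩)
    · by_cases hwC : w ∈ Cset B f
      · exact Or.inr ⟨w, Finset.mem_union_right _ hwC, hadj⟩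
      · by_cases hwB : w ∈ B
        · exact Or.inr ⟨w, Finset.mem_union_left _ (Finset.mem_filter.2 ⟨hw, hwB, hwC⟩), hadj⟩
        · exfalso
          rcases h.fadj z w hadj with h2 | h2
          · exact hwB h2.2
          · apply hzC
            unfold Cset
            rw [Finset.mem_filter]
            refine ⟨hz, ⟨w, ?_⟩⟩
            rw [mem_Yset]
            rw [h.fB z hz] at h2
            exact ⟨h2.symm, fun he => hwB (he ▸ hz)⟩
    · exact Or.inr ⟨w, Finset.mem_union_right _ hw, hadj⟩

/-- The closed neighbourhood of the attachment vertices inside `B` is a clique. -/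
theorem clique (h : Setup G γ B f) {u v : V} (hu : u ∈ B) (hv : v ∈ B) (huv : u ≠ v)
    (hPu : u ∈ Cset B f ∨ ∃ c ∈ Cset B f, G.Adj u c)
    (hPv : v ∈ Cset B f ∨ ∃ c ∈ Cset B f, G.Adj v c) : G.Adj u v := by
  by_contra hn
  obtain ⟨D, hDc, hDd, -⟩ := h.crit' huv hn
  have hval : Val G B f (D.filter (fun a => a ∈ B ∧ a ∉ Cset B f)) := by
    apply h.val_of_dom
    intro z hz hzC
    by_cases hzu : z = u
    · rcases hPu with h1 | h1
      · exact absurd (hzu ▸ h1) hzC
      · right; right; exact hzu ▸ h1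
    · by_cases hzv : z = v
      · rcases hPv with h1 | h1
        · exact absurd (hzv ▸ h1) hzC
        · right; right; exact hzv ▸ h1
      · rcases dom_of_edge hDd (Set.mem_univ z) (fun h => hzu h.1) (fun h => hzv h.1)
          with h1 | h1
        · exact Or.inl h1
        · exact Or.inr (Or.inl h1)
  have h1 := h.K1 hval
  have h2 := h.count D
  have h3 : ∑ c ∈ Cset B f, (gv G f c + 1) ≤
      ∑ c ∈ Cset B f, (D.filter (fun a => f a = c)).card := by
    apply Finset.sum_le_sum
    intro c hc
    unfold Cset at hc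
    rw [Finset.mem_filter] at hc
    apply h.L1 hc.1 hc.2
    intro z hz
    have hzB := h.Y_not_mem hz
    exact dom_of_edge hDd (Set.mem_univ z) (fun h => hzB (h.1 ▸ hu)) (fun h => hzB (h.1 ▸ hv))
  omega

theorem exists_min_val (_h : Setup G γ B f) :
    ∃ E, Val G B f E ∧ ∀ E', Val G B f E' → E.card ≤ E'.card := by
  have hne : {E : Finset V | Val G B f E}.Nonempty :=
    ⟨B, Finset.Subset.refl _, fun v hv => Or.inl (Finset.mem_union_left _ hv)⟩
  obtain ⟨E, hE, hmin⟩ := (measure (fun E : Finset V => E.card)).wf.has_min _ hne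
  exact ⟨E, hE, fun E' hE' => not_lt.1 (hmin E' hE')⟩

/-- If the block is not a clique, it has a small dominating set. -/
theorem gamB_le (h : Setup G γ B f) {c p : V} (hc : c ∈ Cset B f) (hpB : p ∈ B)
    (hpC : p ∉ Cset B f) (hpP : ∃ c ∈ Cset B f, G.Adj p c)
    {E0 : Finset V} (hE0 : Val G B f E0)
    (hmin : ∀ E', Val G B f E' → E0.card ≤ E'.card) :
    γ G (B : Set V) ≤ E0.card := by
  have hcB : c ∈ B := (Finset.mem_filter.1 hc).1
  have hcY : (Yset f c).Nonempty := (Finset.mem_filter.1 hc).2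
  obtain ⟨y, hy⟩ := hcY
  have hyB := h.Y_not_mem hy
  have hyp : y ≠ p := fun he => hyB (he ▸ hpB)
  have hnadj : ¬ G.Adj y p := by
    intro hadj
    rcases h.Y_adj hy hadj with h1 | h1
    · exact hpC (h1 ▸ hc)
    · exact h.Y_not_mem h1 hpB
  obtain ⟨D, hDc, hDd, -⟩ := h.crit' hyp hnadj
  set E := D.filter (fun a => a ∈ B ∧ a ∉ Cset B f) with hEdef
  have hval : Val G B f E := by
    apply h.val_of_dom
    intro z hz hzC
    by_cases hzp : z = p
    · right; right; exact hzp ▸ hpP
    · rcases dom_of_edge hDd (Set.mem_univ z) (fun h => hyB (h.1 ▸ hz)) (fun h => hzp h.1)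
          with h1 | h1
      · exact Or.inl h1
      · exact Or.inr (Or.inl h1)
  have h1 := h.K1 hE0
  have h2 := h.count D
  rw [← hEdef] at h2
  have h3 : ∀ c' ∈ (Cset B f).erase c, (gv G f c' + 1) ≤
      (D.filter (fun a => f a = c')).card := by
    intro c' hc'
    rw [Finset.mem_erase] at hc'
    have hc'' := hc'.2
    unfold Cset at hc''
    rw [Finset.mem_filter] at hc''
    apply h.L1 hc''.1 hc''.2
    intro z hz
    have hzB := h.Y_not_mem hz
    apply dom_of_edge hDd (Set.mem_univ z)
    · rintro ⟨rfl, -⟩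
      rw [mem_Yset] at hz hy
      exact hc'.1 (hz.1.symm.trans hy.1)
    · exact fun h => hzB (h.1 ▸ hpB)
  have h4 := Finset.sum_le_sum h3
  have h5 := Finset.add_sum_erase (Cset B f) (fun c => gv G f c + 1) hc
  have h6 := Finset.add_sum_erase (Cset B f) (fun c => (D.filter (fun a => f a = c)).card) hc
  have h7 := hmin E hval
  have h8 : gv G f c ≤ (D.filter (fun a => f a = c)).card := by
    apply h.L2 hcB ⟨y, hy⟩ y
    intro v hv hvy
    have hvB := h.Y_not_mem hv
    exact dom_of_edge hDd (Set.mem_univ v) (fun h => hvy h.1) (fun h => hvB (h.1 ▸ hpB))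
  -- `p` belongs to the dominating set
  have hpD : p ∈ D := by
    by_contra hpD
    have h9 : gv G f c + 1 ≤ (D.filter (fun a => f a = c)).card := by
      apply h.L1 hcB ⟨y, hy⟩
      intro v hv
      have hvB := h.Y_not_mem hv
      exact dom_of_edge hDd (Set.mem_univ v) (fun h => hpD h.2) (fun h => hvB (h.1 ▸ hpB))
    omega
  have hpE : p ∈ E := Finset.mem_filter.2 ⟨hpD, hpB, hpC⟩
  have hEle : E.card ≤ E0.card := by omega
  refine le_trans ?_ hEle
  apply h.gam.le
  · intro v hv; exact hval.1 hv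
  · intro v hv
    by_cases hvE : v ∈ E
    · exact Or.inl hvE
    · right
      by_cases hPv : v ∈ Cset B f ∨ ∃ c ∈ Cset B f, G.Adj v c
      · refine ⟨p, hpE, h.clique hv hpB (fun he => hvE (he ▸ hpE)) hPv (Or.inr hpP)⟩
      · push Not at hPv
        rcases hval.2 v hv with h9 | ⟨u, hu, hadj⟩
        · rw [Finset.mem_union] at h9
          rcases h9 with h9 | h9
          · exact absurd h9 hvE
          · exact absurd h9 hPv.1
        · rw [Finset.mem_union] at hu
          rcases hu with hu | hu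
          · exact ⟨u, hu, hadj⟩
          · exact absurd hadj (hPv.2 u hu)

theorem main (h : Setup G γ B f) (hconn : (G.induce (B : Set V)).Preconnected)
    (hCne : (Cset B f).Nonempty)
    (hcritB : ∀ u ∈ B, ∀ v ∈ B, u ≠ v → ¬ G.Adj u v →
      γ (G ⊔ SimpleGraph.edge u v) (B : Set V) = γ G (B : Set V) - 1) :
    ∀ u ∈ B, ∀ v ∈ B, u ≠ v → G.Adj u v := by
  by_cases hall : ∀ r ∈ B, (r ∈ Cset B f ∨ ∃ c ∈ Cset B f, G.Adj r c)
  · intro u hu v hv huv
    exact h.clique hu hv huv (hall u hu) (hall v hv)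
  exfalso
  push Not at hall
  obtain ⟨r, hrB, hrC, hrn⟩ := hall
  obtain ⟨c, hc⟩ := hCne
  have hcB : c ∈ B := (Finset.mem_filter.1 hc).1
  -- a vertex of the clique that is not an attachment vertex
  have hp : ∃ p ∈ B, p ∉ Cset B f ∧ ∃ c ∈ Cset B f, G.Adj p c := by
    by_contra hno
    push Not at hno
    have key : ∀ (a b : (B : Set V)) (_ : (G.induce (B : Set V)).Walk a b),
        a.1 ∈ Cset B f → b.1 ∈ Cset B f := by
      intro a b q
      induction q with
      | nil => exact id
      | @cons a' b' _ hadj q ih =>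
        intro ha
        apply ih
        by_contra hb
        have hadj' : G.Adj a'.1 b'.1 := hadj
        exact hno b'.1 b'.2 hb a'.1 ha hadj'.symm
    obtain ⟨q⟩ := hconn ⟨c, hcB⟩ ⟨r, hrB⟩
    exact hrC (key _ _ q hc)
  obtain ⟨p, hpB, hpC, hpP⟩ := hp
  obtain ⟨E0, hE0, hmin⟩ := h.exists_min_val
  have hle := h.gamB_le hc hpB hpC hpP hE0 hmin
  have hcr : c ≠ r := fun he => hrC (he ▸ hc)
  have hncr : ¬ G.Adj c r := fun hadj => hrn c hc hadj.symm
  obtain ⟨F, hFs, hFc, hFd⟩ := h.gam.ex (G ⊔ SimpleGraph.edge c r) (B : Set V)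
  rw [hcritB c hcB r hrB hcr hncr] at hFc
  have hpos : 1 ≤ γ G (B : Set V) := by
    obtain ⟨D, hDs, hDc, hDd⟩ := h.gam.ex G (B : Set V)
    rw [← hDc]
    rcases hDd c hcB with h1 | ⟨u, hu, -⟩
    · exact Finset.card_pos.2 ⟨c, h1⟩
    · exact Finset.card_pos.2 ⟨u, hu⟩
  have hFlt : F.card + 1 ≤ E0.card := by omega
  by_cases hcF : c ∈ F
  · have hval : Val G B f (insert r (F.erase c)) := by
      constructor
      · intro v hv
        rw [Finset.mem_insert, Finset.mem_erase] at hv
        rcases hv with hv | hv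
        · exact hv ▸ hrB
        · exact hFs hv.2
      · intro v hv
        by_cases hvr : v = r
        · left; rw [hvr]; exact Finset.mem_union_left _ (Finset.mem_insert_self _ _)
        by_cases hvc : v = c
        · left; rw [hvc]; exact Finset.mem_union_right _ hc
        rcases dom_of_edge hFd hv (fun h => hvc h.1) (fun h => hvr h.1) with h1 | ⟨w, hw, hadj⟩
        · left
          apply Finset.mem_union_left
          apply Finset.mem_insert_of_mem
          exact Finset.mem_erase.2 ⟨hvc, h1⟩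
        · right
          by_cases hwc : w = c
          · exact ⟨w, Finset.mem_union_right _ (hwc ▸ hc), hadj⟩
          · refine ⟨w, ?_, hadj⟩
            apply Finset.mem_union_left
            apply Finset.mem_insert_of_mem
            exact Finset.mem_erase.2 ⟨hwc, hw⟩
    have h1 := hmin _ hval
    have h2 := Finset.card_insert_le r (F.erase c)
    have h3 := Finset.card_erase_add_one hcF
    omega
  · have hval : Val G B f F := by
      constructor
      · intro v hv; exact hFs hv
      · intro v hv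
        by_cases hvc : v = c
        · left; rw [hvc]; exact Finset.mem_union_right _ hc
        rcases dom_of_edge hFd hv (fun h => hvc h.1) (fun h => hcF h.2) with h1 | ⟨w, hw, hadj⟩
        · exact Or.inl (Finset.mem_union_left _ h1)
        · exact Or.inr ⟨w, Finset.mem_union_left _ hw, hadj⟩
    have h1 := hmin _ hval
    omega

end Setup

/-- The block statement in the form of the frozen theorem. -/
theorem nuclear_block (G : SimpleGraph V) (γ : SimpleGraph V → Set V → ℕ) (hγ : IsGam γ)
    (hG : G.Connected)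
    (hcrit : ∀ u v : V, u ≠ v → ¬ G.Adj u v →
      γ (G ⊔ SimpleGraph.edge u v) Set.univ = γ G Set.univ - 1)
    (hcut : ∃ c : V, ¬ (G.induce ({c}ᶜ : Set V)).Preconnected)
    (B : Set V) (hB : IsBlock G B)
    (hnuc : {v : V | γ G ({v}ᶜ : Set V) = γ G Set.univ} ⊆ B)
    (hcritB : ∀ u ∈ B, ∀ v ∈ B, u ≠ v → ¬ G.Adj u v →
      γ (G ⊔ SimpleGraph.edge u v) B = γ G B - 1) :
    ∀ u ∈ B, ∀ v ∈ B, u ≠ v → G.Adj u v := by
  obtain ⟨f, hfB, hfmem, hfadj⟩ := exists_retraction G hG B hB
  obtain ⟨B, rfl⟩ : ∃ B' : Finset V, (B' : Set V) = B :=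
    ⟨(Set.toFinite B).toFinset, Set.Finite.coe_toFinset (Set.toFinite B)⟩
  -- the block is not everything
  have hCne : (Setup.Cset B f).Nonempty := by
    by_contra hC
    rw [Finset.not_nonempty_iff_eq_empty] at hC
    have hBuniv : (B : Set V) = Set.univ := by
      ext v
      simp only [Set.mem_univ, iff_true]
      by_contra hv
      have : f v ∈ Setup.Cset B f := by
        unfold Setup.Cset
        rw [Finset.mem_filter]
        refine ⟨hfmem v, v, ?_⟩
        rw [mem_Yset]
        exact ⟨rfl, fun he => hv (he ▸ hfmem v)⟩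
      rw [hC] at this
      exact absurd this (Finset.notMem_empty _)
    obtain ⟨c, hc⟩ := hcut
    have h1 := hB.2.1 c (by rw [hBuniv]; exact Set.mem_univ c)
    rw [hBuniv] at h1
    apply hc
    rw [Set.compl_eq_univ_sdiff]
    exact h1
  obtain ⟨c0, hc0⟩ := hCne
  have hnbr : ∀ c ∈ B, ∃ x ∈ B, x ≠ c ∧ G.Adj c x := by
    intro c hc
    by_contra hno
    push Not at hno
    -- then `B = {c}`
    have hBc : ∀ b ∈ B, b = c := by
      intro b hb
      by_contra hbc
      obtain ⟨q⟩ := hB.1.preconnected ⟨c, hc⟩ ⟨b, hb⟩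
      cases q with
      | nil => exact hbc rfl
      | @cons _ x _ hadj q =>
        have hadj' : G.Adj c x.1 := hadj
        exact hno x.1 x.2 (fun he => G.loopless.irrefl c (he ▸ hadj')) hadj'
    -- a neighbour of `c` outside `B`
    have hY : (Yset f c0).Nonempty := (Finset.mem_filter.1 hc0).2
    obtain ⟨y, hy⟩ := hY
    have hyc : y ≠ c := by
      rintro rfl
      rw [mem_Yset] at hy
      exact hy.2 (hBc c0 (Finset.mem_filter.1 hc0).1).symm
    obtain ⟨q⟩ := hG.preconnected c y
    cases q with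
    | nil => exact hyc rfl
    | @cons _ x _ hadj q =>
      have hxB : x ∉ B := fun hx => G.loopless.irrefl c ((hBc x hx) ▸ hadj)
      have hsub : (B : Set V) ⊆ {c, x} := by
        intro b hb
        left
        exact hBc b hb
      have h1 := hB.2.2 {c, x} hsub (induce_pair_connected_of_adj hadj) (by
        intro v hv
        have : Subsingleton (({c, x} \ {v} : Set V) : Type _) := by
          constructor
          rintro ⟨a, ha, hav⟩ ⟨b, hb, hbv⟩
          simp only [Set.mem_insert_iff, Set.mem_singleton_iff] at ha hav hb hbv hv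
          ext
          rcases ha with rfl | rfl <;> rcases hb with rfl | rfl <;> rcases hv with rfl | rfl <;>
            first | rfl | exact absurd rfl hav | exact absurd rfl hbv
        exact Preconnected.of_subsingleton)
      have hx : x ∈ ({c, x} : Set V) := by simp
      rw [h1] at hx
      exact hxB hx
  have hS : Setup G γ B f :=
    { gam := hγ
      conn := hG
      crit := hcrit
      fB := hfB
      fmem := hfmem
      fadj := hfadj
      nuc := fun v hv => hnuc hv
      nbr := hnbr }
  exact hS.main hB.1.preconnected ⟨c0, hc0⟩ hcritB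

end Pool.Agent.Helper26
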